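import Pool.Agent.Q211.ZQ.C

/-!
# Compact Hausdorff quasi-metrizable spaces are metrizable without choice

In every model of Zermelo set theory (so in every model of ZF): every compact Hausdorff
quasi-metrizable space is metrizable.
-/

namespace Pool.Agent.Results.MP_dae09c_lc.QuasiMetrizableMetrizable

open FirstOrder FirstOrder.Language
open Pool.Agent.Helper672.Plain (LSet Zermelo)
open Pool.Agent.H310Top (IsCompact IsHausdorff)
open Pool.Agent.Q211.QMet (IsQuasiMetrizable IsMetrizable)

universe u

theorem result (M : Type u) [LSet.Structure M] [Zermelo M] (t x : M) (h1 : IsCompact t x)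
    (h2 : IsHausdorff t x) (h3 : IsQuasiMetrizable t x) : IsMetrizable t x :=
  Pool.Agent.Q211.ZQ.metrizable_of_qm h1 h2 h3

end Pool.Agent.Results.MP_dae09c_lc.QuasiMetrizableMetrizable
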